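import Pool.Agent.H19.KN.Targets

/-! Board kna_modules, row NETA: norms of small symbols are small. -/

namespace Pool.Agent.H24.KN

open Pool.Agent.H62.MK Pool.Agent.H19.KN Polynomial Function

universe u

theorem pf_NETA (h : T_NETAT.{u}) : T_NETA.{u} := by
  intro K E _ _ _ _ O π q e n hO hI hq hn m y hy
  unfold Pool.Agent.H62.MK.norm
  split
  · rename_i hfd
    haveI : CharZero E := charZero_of_injective_algebraMap (algebraMap K E).injective
    exact h E _ K (Algebra.IsAlgebraic.of_finite K E) O π q e n hO hI hq hn m y hy
  · exact zero_mem _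

end Pool.Agent.H24.KN
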